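import Pool.Agent.X149.LowDegree

set_option autoImplicit false

/-!
# Corner-free sets support no functions of low degree

Let `G` be an abelian group and let `f` be a nonzero function on `G^n × G^n`, with values in any
field, which is a linear combination of functions depending on at most `a` coordinates of the first
and at most `b` coordinates of the second point. If `a + b < n` then the support of `f` contains a
nontrivial corner; if `a + b = n` it need not.
-/

namespace Pool.Agent.Results.MP_db4732_co.DegreeThreshold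

open Finset Pool.Agent.X149

/-- `A` contains no corner `(x, y)`, `(x, y + z)`, `(x + z, y)` with `z ≠ 0`. -/
def CornerFree {H : Type} [AddCommGroup H] (A : Set (H × H)) : Prop :=
  ∀ x y z : H, (x, y) ∈ A → (x, y + z) ∈ A → (x + z, y) ∈ A → z = 0

/-- `f` is a linear combination, with coefficients in `K`, of functions each of which depends on at
most `a` coordinates of `x` and at most `b` coordinates of `y`. -/
def BidegreeLE (K : Type) [Field K] {G : Type} {n : ℕ} (a b : ℕ)
    (f : (Fin n → G) × (Fin n → G) → K) : Prop :=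
  f ∈ Submodule.span K {g : (Fin n → G) × (Fin n → G) → K |
    ∃ S T : Finset (Fin n), S.card ≤ a ∧ T.card ≤ b ∧ ∀ p p' : (Fin n → G) × (Fin n → G),
      (∀ i ∈ S, p.1 i = p'.1 i) → (∀ i ∈ T, p.2 i = p'.2 i) → g p = g p'}

/-- `f` is a linear combination, with coefficients in `K`, of functions each of which depends on at
most `d` of the `2 n` coordinates of `x` and `y`. -/
def DegreeLE (K : Type) [Field K] {G : Type} {n : ℕ} (d : ℕ)
    (f : (Fin n → G) × (Fin n → G) → K) : Prop :=
  f ∈ Submodule.span K {g : (Fin n → G) × (Fin n → G) → K |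
    ∃ S T : Finset (Fin n), S.card + T.card ≤ d ∧ ∀ p p' : (Fin n → G) × (Fin n → G),
      (∀ i ∈ S, p.1 i = p'.1 i) → (∀ i ∈ T, p.2 i = p'.2 i) → g p = g p'}

section
variable {K : Type} [Field K] {G : Type} {n : ℕ}

theorem snd_deg {a b : ℕ} {f : (Fin n → G) × (Fin n → G) → K} (hf : BidegreeLE K a b f)
    (x : Fin n → G) : LD.Deg K b (fun y => f (x, y)) := by
  refine Submodule.span_induction
    (p := fun (u : (Fin n → G) × (Fin n → G) → K) _ => LD.Deg K b (fun y => u (x, y)))
    ?_ ?_ ?_ ?_ hf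
  · rintro u ⟨S, T, -, hT, hu⟩
    exact LD.deg_of_dep hT (fun y y' h => hu _ _ (fun _ _ => rfl) h)
  · exact LD.deg_const (ι := Fin n) (α := G) (0 : K) b
  · intro u v _ _ h1 h2
    exact LD.deg_add h1 h2
  · intro r u _ h
    exact LD.deg_smul r h

theorem fst_deg {a b : ℕ} {f : (Fin n → G) × (Fin n → G) → K} (hf : BidegreeLE K a b f)
    (y : Fin n → G) : LD.Deg K a (fun x => f (x, y)) := by
  refine Submodule.span_induction
    (p := fun (u : (Fin n → G) × (Fin n → G) → K) _ => LD.Deg K a (fun x => u (x, y)))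
    ?_ ?_ ?_ ?_ hf
  · rintro u ⟨S, T, hS, -, hu⟩
    exact LD.deg_of_dep hS (fun x x' h => hu _ _ h (fun _ _ => rfl))
  · exact LD.deg_const (ι := Fin n) (α := G) (0 : K) a
  · intro u v _ _ h1 h2
    exact LD.deg_add h1 h2
  · intro r u _ h
    exact LD.deg_smul r h

theorem bidegree_of_degree {d : ℕ} {f : (Fin n → G) × (Fin n → G) → K} (hf : DegreeLE K d f) :
    BidegreeLE K d d f := by
  refine Submodule.span_mono ?_ hf
  rintro g ⟨S, T, h, hg⟩
  exact ⟨S, T, by omega, by omega, hg⟩

theorem degree_of_deg {d : ℕ} {F : (Fin n ⊕ Fin n → G) → K} (hF : LD.Deg K d F) :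
    DegreeLE K d (fun p : (Fin n → G) × (Fin n → G) => F (Sum.elim p.1 p.2)) := by
  classical
  refine Submodule.span_induction
    (p := fun (u : (Fin n ⊕ Fin n → G) → K) _ => DegreeLE K d
      (fun p : (Fin n → G) × (Fin n → G) => u (Sum.elim p.1 p.2))) ?_ ?_ ?_ ?_ hF
  · rintro u ⟨T, hT, hu⟩
    refine Submodule.subset_span ⟨T.toLeft, T.toRight, ?_, ?_⟩
    · rw [Finset.card_toLeft_add_card_toRight]
      exact hT
    · intro p p' h1 h2
      refine hu _ _ (fun i hi => ?_)
      rcases i with i | i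
      · exact h1 i (Finset.mem_toLeft.2 hi)
      · exact h2 i (Finset.mem_toRight.2 hi)
  · exact Submodule.zero_mem _
  · intro x y _ _ h1 h2
    exact Submodule.add_mem _ h1 h2
  · intro r x _ h
    exact Submodule.smul_mem _ r h

open Classical in
/-- the vector with the coordinates `g i`, `i ∈ I`, and `0` elsewhere -/
noncomputable def vec [AddCommGroup G] (g : Fin n → G) (I : Set (Fin n)) : Fin n → G :=
  fun i => if i ∈ I then g i else 0

theorem count [AddCommGroup G] {a b : ℕ} {F₁ F₂ : (Fin n → G) → K} (h1 : LD.Deg K b F₁)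
    (h2 : LD.Deg K a F₂) (x y g : Fin n → G) (hy : F₁ y ≠ 0) (hx : F₂ x ≠ 0) :
    2 ^ n ≤ 2 ^ (a + b) * Set.ncard {I : Set (Fin n) | F₁ (y + vec g I) ≠ 0 ∧
      F₂ (x + vec g I) ≠ 0} := by
  classical
  let φ : (Fin n → G) → (Fin n → Bool) → Fin n → G := fun u w i =>
    u i + if w i = true then g i else 0
  have hφ : ∀ u : Fin n → G, ∀ i, ∃ T : Finset (Fin n), T.card ≤ 1 ∧
      LD.Dep T (fun w => φ u w i) := by
    intro u i
    refine ⟨{i}, by simp, ?_⟩
    intro w w' h
    simp only [φ, h i (Finset.mem_singleton_self i)]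
  have e1 := LD.deg_comp h1 (φ y) (hφ y)
  have e2 := LD.deg_comp h2 (φ x) (hφ x)
  have e3 := LD.deg_mul e1 e2
  have h0 : ∀ u : Fin n → G, φ u (fun _ => false) = u := by
    intro u; funext i; simp [φ]
  have h3 := LD.support_card e3 (x := fun _ => false) (by
    simp only [h0]
    exact mul_ne_zero hy hx)
  rw [Fintype.card_fin] at h3
  have e4 : 1 * b + 1 * a = a + b := by ring
  rw [e4] at h3
  refine h3.trans (Nat.mul_le_mul_left _ (le_of_eq ?_))
  have hset : ∀ u : Fin n → G, ∀ w : Fin n → Bool, φ u w = u + vec g {i | w i = true} := by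
    intro u w
    funext i
    simp [φ, vec]
  refine Set.ncard_congr (fun w _ => {i | w i = true}) ?_ ?_ ?_
  · intro w hw
    have hw' : F₁ (φ y w) * F₂ (φ x w) ≠ 0 := hw
    rw [hset, hset] at hw'
    exact ⟨left_ne_zero_of_mul hw', right_ne_zero_of_mul hw'⟩
  · intro w w' _ _ h
    funext i
    have := Set.ext_iff.1 h i
    have h5 : (w i = true) ↔ (w' i = true) := this
    cases hw : w i <;> cases hw' : w' i <;> simp_all
  · intro I hI
    have h6 : {i | (fun i => decide (i ∈ I)) i = true} = I := by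
      ext i; simp
    refine ⟨fun i => decide (i ∈ I), ?_, h6⟩
    show F₁ (φ y _) * F₂ (φ x _) ≠ 0
    rw [hset, hset, h6]
    exact mul_ne_zero hI.1 hI.2

theorem not_cornerFree [AddCommGroup G] [Nontrivial G] {a b : ℕ} {F₁ F₂ : (Fin n → G) → K}
    (h1 : LD.Deg K b F₁) (h2 : LD.Deg K a F₂) (x y : Fin n → G) (hy : F₁ y ≠ 0) (hx : F₂ x ≠ 0)
    (hab : a + b < n) : ∃ z : Fin n → G, z ≠ 0 ∧ F₁ (y + z) ≠ 0 ∧ F₂ (x + z) ≠ 0 := by
  classical
  obtain ⟨g, hg⟩ := exists_ne (0 : G)
  have h3 := count h1 h2 x y (fun _ => g) hy hx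
  have h4 : 2 ≤ Set.ncard {I : Set (Fin n) | F₁ (y + vec (fun _ => g) I) ≠ 0 ∧
      F₂ (x + vec (fun _ => g) I) ≠ 0} := by
    have h5 : 2 ^ (a + b) * 2 ≤ 2 ^ n := by
      rw [← pow_succ]
      exact Nat.pow_le_pow_right (by norm_num) hab
    exact Nat.le_of_mul_le_mul_left (h5.trans h3) (by positivity)
  obtain ⟨I, hI, hne⟩ := Set.exists_ne_of_one_lt_ncard (by omega :
    1 < Set.ncard {I : Set (Fin n) | F₁ (y + vec (fun _ => g) I) ≠ 0 ∧
      F₂ (x + vec (fun _ => g) I) ≠ 0}) ∅
  refine ⟨vec (fun _ => g) I, ?_, hI.1, hI.2⟩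
  obtain ⟨i, hi⟩ := Set.nonempty_iff_ne_empty.2 hne
  intro h0
  have := congrFun h0 i
  simp [vec, hi] at this
  exact hg this

end

/-- **Degree thresholds for corners.** Let `G` be a nontrivial abelian group (for example `F_2`).
(1) If `f` has bidegree at most `(a, b)` and `f (x, y) ≠ 0`, then for every vector `g` at least
`2 ^ (n - a - b)` of the `2 ^ n` vectors `z` with `z i ∈ {0, g i}` (counted by their supports `I`)
satisfy `f (x, y + z) ≠ 0` and `f (x + z, y) ≠ 0`.
(2) If `a + b < n`, no corner-free set contains the support of a nonzero function of bidegree at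
most `(a, b)`.
(3) This is sharp: for `a + b = n` there is a corner-free support.
(4) If `2 d < n`, no corner-free set contains the support of a nonzero function of degree at most
`d`; for `G = F_2` and `n = 2 m` there is a nonzero function of degree at most `m` with a
corner-free support.
(5) If `K` has `q` elements, the `P i` have bidegrees at most `(a i, b i)` and a common zero, and
`(q - 1) ∑ (a i + b i) < n`, then the set of the common zeros is not corner-free. -/
theorem result :
    (∀ (K G : Type) [Field K] [AddCommGroup G] (n a b : ℕ) (f : (Fin n → G) × (Fin n → G) → K),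
      BidegreeLE K a b f → ∀ x y g : Fin n → G, f (x, y) ≠ 0 →
        2 ^ n ≤ 2 ^ (a + b) * Set.ncard {I : Set (Fin n) | f (x, y + vec g I) ≠ 0 ∧
          f (x + vec g I, y) ≠ 0}) ∧
    (∀ (K G : Type) [Field K] [AddCommGroup G] [Nontrivial G] (n a b : ℕ), a + b < n →
      ∀ f : (Fin n → G) × (Fin n → G) → K, BidegreeLE K a b f → f ≠ 0 →
        ∀ A : Set ((Fin n → G) × (Fin n → G)), (∀ p, f p ≠ 0 → p ∈ A) → ¬ CornerFree A) ∧
    (∀ (K G : Type) [Field K] [AddCommGroup G] (n a b : ℕ), a + b = n →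
      ∃ f : (Fin n → G) × (Fin n → G) → K, BidegreeLE K a b f ∧ f ≠ 0 ∧
        CornerFree {p | f p ≠ 0}) ∧
    (∀ (K G : Type) [Field K] [AddCommGroup G] [Nontrivial G] (n d : ℕ), 2 * d < n →
      ∀ f : (Fin n → G) × (Fin n → G) → K, DegreeLE K d f → f ≠ 0 →
        ∀ A : Set ((Fin n → G) × (Fin n → G)), (∀ p, f p ≠ 0 → p ∈ A) → ¬ CornerFree A) ∧
    (∀ (K : Type) [Field K] (m : ℕ), ∃ f : (Fin (m * 2) → ZMod 2) × (Fin (m * 2) → ZMod 2) → K,
      DegreeLE K m f ∧ f ≠ 0 ∧ CornerFree {p | f p ≠ 0}) ∧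
    (∀ (K G : Type) [Field K] [Fintype K] [AddCommGroup G] [Nontrivial G] (n s : ℕ)
      (a b : Fin s → ℕ), (Fintype.card K - 1) * ∑ i, (a i + b i) < n →
      ∀ P : Fin s → (Fin n → G) × (Fin n → G) → K, (∀ i, BidegreeLE K (a i) (b i) (P i)) →
        (∃ p, ∀ i, P i p = 0) → ¬ CornerFree {p | ∀ i, P i p = 0}) := by
  classical
  have main : ∀ (K G : Type) [Field K] [AddCommGroup G] [Nontrivial G] (n a b : ℕ), a + b < n →
      ∀ f : (Fin n → G) × (Fin n → G) → K, BidegreeLE K a b f → f ≠ 0 →
        ∀ A : Set ((Fin n → G) × (Fin n → G)), (∀ p, f p ≠ 0 → p ∈ A) → ¬ CornerFree A := by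
    intro K G _ _ _ n a b hab f hf hne A hA hcf
    obtain ⟨⟨x, y⟩, hxy⟩ := Function.ne_iff.1 hne
    obtain ⟨z, hz, h1, h2⟩ := not_cornerFree (snd_deg hf x) (fst_deg hf y) x y hxy hxy hab
    exact hz (hcf x y z (hA _ hxy) (hA _ h1) (hA _ h2))
  refine ⟨?_, main, ?_, ?_, ?_, ?_⟩
  · intro K G _ _ n a b f hf x y g hxy
    exact count (snd_deg hf x) (fst_deg hf y) x y g hxy hxy
  · intro K G _ _ n a b hab
    refine ⟨fun p => if (∀ i : Fin n, (i : ℕ) < a → p.1 i = 0) ∧
      (∀ i : Fin n, a ≤ (i : ℕ) → p.2 i = 0) then 1 else 0, ?_, ?_, ?_⟩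
    · refine Submodule.subset_span ⟨Finset.univ.filter (fun i : Fin n => (i : ℕ) < a),
        Finset.univ.filter (fun i : Fin n => a ≤ (i : ℕ)), ?_, ?_, ?_⟩
      · rw [Fin.card_filter_val_lt]
        exact min_le_right _ _
      · have h1 : (Finset.univ.filter (fun i : Fin n => (i : ℕ) < a)).card +
            (Finset.univ.filter (fun i : Fin n => ¬ (i : ℕ) < a)).card = n := by
          rw [Finset.card_filter_add_card_filter_not]
          simp
        rw [Fin.card_filter_val_lt] at h1
        have h2 : Finset.univ.filter (fun i : Fin n => a ≤ (i : ℕ)) =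
            Finset.univ.filter (fun i : Fin n => ¬ (i : ℕ) < a) := by
          ext i; simp
        rw [h2]
        omega
      · intro p p' h1 h2
        have e1 : (∀ i : Fin n, (i : ℕ) < a → p.1 i = 0) ↔
            (∀ i : Fin n, (i : ℕ) < a → p'.1 i = 0) := by
          refine forall_congr' (fun i => ?_)
          by_cases hi : (i : ℕ) < a
          · rw [h1 i (by simpa using hi)]
          · simp [hi]
        have e2 : (∀ i : Fin n, a ≤ (i : ℕ) → p.2 i = 0) ↔
            (∀ i : Fin n, a ≤ (i : ℕ) → p'.2 i = 0) := by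
          refine forall_congr' (fun i => ?_)
          by_cases hi : a ≤ (i : ℕ)
          · rw [h2 i (by simpa using hi)]
          · simp [hi]
        simp only [e1, e2]
    · intro h
      have := congrFun h (0, 0)
      simp at this
    · intro x y z h1 h2 h3
      have g1 : (∀ i : Fin n, (i : ℕ) < a → x i = 0) ∧ (∀ i : Fin n, a ≤ (i : ℕ) → y i = 0) := by
        by_contra hc
        exact h1 (if_neg hc)
      have g2 : (∀ i : Fin n, (i : ℕ) < a → x i = 0) ∧
          (∀ i : Fin n, a ≤ (i : ℕ) → (y + z) i = 0) := by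
        by_contra hc
        exact h2 (if_neg hc)
      have g3 : (∀ i : Fin n, (i : ℕ) < a → (x + z) i = 0) ∧
          (∀ i : Fin n, a ≤ (i : ℕ) → y i = 0) := by
        by_contra hc
        exact h3 (if_neg hc)
      funext i
      by_cases hi : (i : ℕ) < a
      · have := g3.1 i hi
        rw [Pi.add_apply, g1.1 i hi, zero_add] at this
        exact this
      · have := g2.2 i (by omega)
        rw [Pi.add_apply, g1.2 i (by omega), zero_add] at this
        exact this
  · intro K G _ _ _ n d hd f hf hne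
    exact main K G n d d (by omega) f (bidegree_of_degree hf) hne
  · intro K _ m
    let e : Fin m × Fin 2 ≃ Fin (m * 2) := finProdFinEquiv
    have h1 : LD.Deg K (∑ _j : Fin m, 1)
        (fun u : Fin (m * 2) ⊕ Fin (m * 2) → ZMod 2 => ∏ j : Fin m,
          ((if u (Sum.inl (e (j, 0))) = 0 then (1 : K) else 0) -
            (if u (Sum.inr (e (j, 1))) = 0 then (1 : K) else 0))) := by
      refine LD.deg_prod Finset.univ (fun _ => 1)
        (fun j u => (if u (Sum.inl (e (j, 0))) = 0 then (1 : K) else 0) -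
            (if u (Sum.inr (e (j, 1))) = 0 then (1 : K) else 0)) (fun j _ => ?_)
      refine LD.deg_sub ?_ ?_
      · refine LD.deg_of_dep (T := {Sum.inl (e (j, 0))}) (by simp) ?_
        intro x y h
        simp only [h _ (Finset.mem_singleton_self _)]
      · refine LD.deg_of_dep (T := {Sum.inr (e (j, 1))}) (by simp) ?_
        intro x y h
        simp only [h _ (Finset.mem_singleton_self _)]
    have h2 := degree_of_deg h1
    have h3 : (∑ _j : Fin m, 1) = m := by simp
    rw [h3] at h2
    refine ⟨_, h2, ?_, ?_⟩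
    · intro h
      have := congrFun h (fun _ => 0, fun _ => 1)
      simp at this
    · have hkey : ∀ x y z : Fin (m * 2) → ZMod 2, ∀ j : Fin m,
          (fun p : (Fin (m * 2) → ZMod 2) × (Fin (m * 2) → ZMod 2) => ∏ j : Fin m,
            ((if Sum.elim p.1 p.2 (Sum.inl (e (j, 0))) = 0 then (1 : K) else 0) -
            (if Sum.elim p.1 p.2 (Sum.inr (e (j, 1))) = 0 then (1 : K) else 0))) (x, y) ≠ 0 →
          ((x (e (j, 0)) = 0) ↔ ¬ (y (e (j, 1)) = 0)) := by
        intro x y z j h
        have h4 := Finset.prod_ne_zero_iff.1 h j (Finset.mem_univ j)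
        simp only [Sum.elim_inl, Sum.elim_inr] at h4
        by_cases hx : x (e (j, 0)) = 0 <;> by_cases hy : y (e (j, 1)) = 0 <;> simp_all
      have hz2 : ∀ u v w : ZMod 2, ((u = 0) ↔ ¬ (v = 0)) → ((u = 0) ↔ ¬ (v + w = 0)) → w = 0 := by
        decide
      have hz3 : ∀ u v w : ZMod 2, ((u = 0) ↔ ¬ (v = 0)) → ((u + w = 0) ↔ ¬ (v = 0)) → w = 0 := by
        decide
      intro x y z g1 g2 g3
      funext i
      obtain ⟨⟨j, c⟩, rfl⟩ := e.surjective i
      have k1 := hkey x y z j g1
      have k2 := hkey x (y + z) z j g2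
      have k3 := hkey (x + z) y z j g3
      fin_cases c
      · exact hz3 _ _ _ k1 k3
      · exact hz2 _ _ _ k1 k2
  · intro K G _ _ _ _ n s a b hab P hP hne hcf
    obtain ⟨⟨x, y⟩, hxy⟩ := hne
    have hq : 1 < Fintype.card K := Fintype.one_lt_card
    let F : (Fin n → G) × (Fin n → G) → K := fun p => ∏ i, (1 - P i p ^ (Fintype.card K - 1))
    have hF : ∀ p, F p ≠ 0 ↔ ∀ i, P i p = 0 := by
      intro p
      constructor
      · intro hp i
        by_contra hne
        apply hp
        refine Finset.prod_eq_zero (Finset.mem_univ i) ?_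
        rw [FiniteField.pow_card_sub_one_eq_one _ hne, sub_self]
      · intro hp
        have : F p = 1 := Finset.prod_eq_one (fun i _ => by
          rw [hp i, zero_pow (by omega), sub_zero])
        rw [this]
        exact one_ne_zero
    have d1 : LD.Deg K (∑ i, (Fintype.card K - 1) * b i) (fun v => F (x, v)) :=
      LD.deg_prod Finset.univ (fun i => (Fintype.card K - 1) * b i)
        (fun i v => 1 - P i (x, v) ^ (Fintype.card K - 1))
        (fun i _ => LD.deg_sub (LD.deg_const _ _) (LD.deg_pow (snd_deg (hP i) x) _))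
    have d2 : LD.Deg K (∑ i, (Fintype.card K - 1) * a i) (fun v => F (v, y)) :=
      LD.deg_prod Finset.univ (fun i => (Fintype.card K - 1) * a i)
        (fun i v => 1 - P i (v, y) ^ (Fintype.card K - 1))
        (fun i _ => LD.deg_sub (LD.deg_const _ _) (LD.deg_pow (fst_deg (hP i) y) _))
    have hsum : ∑ i, (Fintype.card K - 1) * a i + ∑ i, (Fintype.card K - 1) * b i < n := by
      rw [← Finset.mul_sum, ← Finset.mul_sum, ← Nat.mul_add, ← Finset.sum_add_distrib]
      exact hab
    obtain ⟨z, hz, h1, h2⟩ := not_cornerFree d1 d2 x y ((hF _).2 hxy) ((hF _).2 hxy) hsum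
    exact hz (hcf x y z hxy ((hF _).1 h1) ((hF _).1 h2))

end Pool.Agent.Results.MP_db4732_co.DegreeThreshold
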