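import Pool.Agent.X59.EQ.D
import Pool.Agent.TH513.Cor.Fam

/-!
# Corner-free sets decided by adaptive equality tests

The membership of `(x, y)` in a set `A ⊆ G × G` is decided adaptively by tests of the form
`f(u) = g(v)`, where `u`, `v` are two of `x`, `y`, `x + y` and the labellings `f`, `g` of `G` are
arbitrary and may depend on the results of the tests before.

(1) If only `x` and `y` are used, a corner-free union of `k` sets decided by at most `d` tests has at
most `k 3^d N^(3/2)` points, `N = |G|`. (2) If `G = F_2^n` and `x + y` may be used, it has at most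
`k 3^(d+1/4) 4^(0.99 n)` points: the power saving bound holds for all corner-free sets decided by a
small multiple of `n` tests. (3) All sets are decided by `n + 1` tests of `x` and `y`. (4) The
exponent `3/2` in (1) is the right one already for a single test.

Outline. Let `Φ(B)` be the root of the product of the sizes of the sides of a box `B`. The positive
result of a test divides a box into boxes, with `Σ Φ(B_i) ≤ Φ(B)` by Cauchy-Schwarz. For the negative
result colour the labels red and blue in all possible ways and keep the points with `f(u)` red and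
`g(v)` blue; a point with `f(u) ≠ g(v)` survives with probability `1/4`, and the mean of `Φ` is at
most `Φ(B)/2`. So a bound `c Φ(B)` for boxes inside the set gives `3^d c Φ`. A box `B_0 × B_1` without
corners has at most `N` points, because the sums are different; for three labels we use the bound
`3 * 54^(n/3)` for the corner-free sets `{x ∈ B_0, y ∈ B_1, x + y ∈ B_2}` which follows from
the slice rank method (helper835, `ThreePartyRank`).
-/

set_option autoImplicit false
open Finset
open scoped Classical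

namespace Pool.Agent.Results.MP_db4732_co.EqualityOracle

/-- `A` contains no corner `(x, y), (x, y + z), (x + z, y)` with `z ≠ 0`. -/
def CornerFree {G : Type} [AddCommGroup G] (A : Finset (G × G)) : Prop :=
  ∀ x y z : G, (x, y) ∈ A → (x, y + z) ∈ A → (x + z, y) ∈ A → z = 0

/-- The three elements `x`, `y`, `x + y`. -/
def entry {G : Type} [AddCommGroup G] (x y : G) : Fin 3 → G := ![x, y, x + y]

/-- Protocols with an equality oracle. A leaf gives the answer; a node tests whether `f` of one of
the elements `x`, `y`, `x + y` equals `g` of another, and goes on with `yes` or `no`. -/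
inductive Protocol (G : Type) : Type
  | leaf (answer : Bool) : Protocol G
  | node (p q : Fin 3) (f g : G → ℕ) (yes no : Protocol G) : Protocol G

/-- The largest number of tests. -/
def Protocol.tests {G : Type} : Protocol G → ℕ
  | .leaf _ => 0
  | .node _ _ _ _ yes no => max yes.tests no.tests + 1

/-- The answer for `(x, y)`. -/
def Protocol.run {G : Type} [AddCommGroup G] : Protocol G → G → G → Bool
  | .leaf answer, _, _ => answer
  | .node p q f g yes no, x, y =>
      if f (entry x y p) = g (entry x y q) then yes.run x y else no.run x y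

/-- No test uses `x + y`. -/
def Protocol.TwoParty {G : Type} : Protocol G → Prop
  | .leaf _ => True
  | .node p q _ _ yes no => p ≠ 2 ∧ q ≠ 2 ∧ yes.TwoParty ∧ no.TwoParty

open Pool.Agent.X59 Pool.Agent.X59.EQ

/-- translation -/
def conv {G ι : Type} (e : Fin 3 → ι) : Protocol G → DT (ι → G)
  | .leaf b => .leaf b
  | .node p q f g yes no => .node (fun x => f (x (e p)) = g (x (e q))) (conv e yes) (conv e no)

theorem conv_depth {G ι : Type} (e : Fin 3 → ι) (t : Protocol G) : (conv e t).depth = t.tests := by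
  induction t with
  | leaf b => rfl
  | node p q f g a b iha ihb =>
    show max (conv e a).depth (conv e b).depth + 1 = max a.tests b.tests + 1
    rw [iha, ihb]

theorem conv_in {G ι : Type} [Fintype ι] (e : Fin 3 → ι) (t : Protocol G) :
    (conv e t).In IsEq := by
  induction t with
  | leaf b => trivial
  | node p q f g a b iha ihb => exact ⟨⟨e p, e q, f, g, fun x => Iff.rfl⟩, iha, ihb⟩

theorem conv_acc {G ι : Type} [AddCommGroup G] (e : Fin 3 → ι) (x : ι → G) (a b : G)
    (t : Protocol G)
    (h : (∀ p, x (e p) = entry a b p) ∨ t.TwoParty ∧ ∀ p, p ≠ 2 → x (e p) = entry a b p) :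
    (conv e t).acc x ↔ t.run a b = true := by
  induction t with
  | leaf b => exact Iff.rfl
  | node p q f g s t ihs iht =>
    have hs : (conv e s).acc x ↔ s.run a b = true :=
      ihs (h.imp id fun h => ⟨h.1.2.2.1, h.2⟩)
    have ht : (conv e t).acc x ↔ t.run a b = true :=
      iht (h.imp id fun h => ⟨h.1.2.2.2, h.2⟩)
    have hp : x (e p) = entry a b p := h.elim (fun h => h p) fun h => h.2 p h.1.1
    have hq : x (e q) = entry a b q := h.elim (fun h => h q) fun h => h.2 q h.1.2.1
    show ((f (x (e p)) = g (x (e q)) ∧ (conv e s).acc x) ∨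
      (¬ f (x (e p)) = g (x (e q)) ∧ (conv e t).acc x)) ↔
      (if f (entry a b p) = g (entry a b q) then s.run a b else t.run a b) = true
    rw [hp, hq, hs, ht]
    by_cases h0 : f (entry a b p) = g (entry a b q)
    · simp [h0]
    · simp [h0]

theorem sqrt_leaf {P N : ℝ} (hP : 0 ≤ P) (h : P ≤ N) : P ≤ Real.sqrt N * Real.sqrt P := by
  have h1 : Real.sqrt P ≤ Real.sqrt N := Real.sqrt_le_sqrt h
  have h2 : P = Real.sqrt P * Real.sqrt P := (Real.mul_self_sqrt hP).symm
  calc P = Real.sqrt P * Real.sqrt P := h2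
    _ ≤ _ := mul_le_mul_of_nonneg_right h1 (Real.sqrt_nonneg _)

/-- one protocol, two labels -/
theorem two {G : Type} [AddCommGroup G] [Fintype G] (A B : Finset (G × G)) (hA : CornerFree A)
    (hBA : B ⊆ A) (t : Protocol G) (ht : t.TwoParty)
    (hB : ∀ x y, (x, y) ∈ B ↔ t.run x y = true) :
    (B.card : ℝ) ≤ 3 ^ t.tests * (Fintype.card G : ℝ) ^ ((3 : ℝ) / 2) := by
  set e : Fin 3 → Fin 2 := fun p => if p = 0 then 0 else 1 with he
  have hacc : ∀ x : Fin 2 → G, (conv e t).acc x ↔ (x 0, x 1) ∈ B := by
    intro x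
    rw [hB]
    refine conv_acc e x (x 0) (x 1) t (Or.inr ⟨ht, fun p hp => ?_⟩)
    fin_cases p
    · rfl
    · rfl
    · exact absurd rfl hp
  set N : ℝ := ((Fintype.card G : ℕ) : ℝ) with hN
  have hN0 : 0 ≤ N := Nat.cast_nonneg _
  have h := eq_count (ι := Fin 2) (V := G) (W := fun _ => True) (c := Real.sqrt N)
    (Real.sqrt_nonneg _) (S := fun x => (x 0, x 1) ∈ A) ?_ (conv e t) (conv_in e t)
    (fun x _ hx => hBA ((hacc x).1 hx))
  · have h1 : (flt (cellW (fun _ : Fin 2 → G => True) fun _ => univ) (conv e t).acc).card =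
        B.card := by
      refine card_bij (fun x _ => (x 0, x 1)) ?_ ?_ ?_
      · intro x hx
        rw [mem_flt] at hx
        exact (hacc x).1 hx.2
      · intro x _ y _ h
        rw [Prod.mk.injEq] at h
        funext i
        fin_cases i
        · exact h.1
        · exact h.2
      · intro y hy
        refine ⟨![y.1, y.2], ?_, rfl⟩
        rw [mem_flt, mem_cellW]
        exact ⟨⟨fun i => mem_univ _, trivial⟩, (hacc _).2 hy⟩
    rw [h1, conv_depth] at h
    refine h.trans (mul_le_mul_of_nonneg_left (le_of_eq ?_) (by positivity))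
    rw [Fintype.card_fin, ← hN, Real.sqrt_sq hN0, Real.sqrt_eq_rpow]
    rcases hN0.eq_or_lt with h0 | h0
    · rw [← h0, Real.zero_rpow (by norm_num), Real.zero_rpow (by norm_num), zero_mul]
    · rw [show (3 : ℝ) / 2 = 1 / 2 + 1 by norm_num, Real.rpow_add h0, Real.rpow_one]
  · intro C hC
    have hcell : (cellW (fun _ : Fin 2 → G => True) C).card = (C 0 ×ˢ C 1).card := by
      refine card_bij (fun x _ => (x 0, x 1)) ?_ ?_ ?_
      · intro x hx
        rw [mem_cellW] at hx
        exact mem_product.2 ⟨hx.1 0, hx.1 1⟩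
      · intro x _ y _ h
        rw [Prod.mk.injEq] at h
        funext i
        fin_cases i
        · exact h.1
        · exact h.2
      · intro y hy
        rw [mem_product] at hy
        refine ⟨![y.1, y.2], ?_, rfl⟩
        rw [mem_cellW]
        refine ⟨fun i => ?_, trivial⟩
        fin_cases i
        · exact hy.1
        · exact hy.2
    have hin : ∀ a ∈ C 0, ∀ b ∈ C 1, (a, b) ∈ A := by
      intro a ha b hb
      refine hC ![a, b] ?_
      rw [mem_cellW]
      refine ⟨fun i => ?_, trivial⟩
      fin_cases i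
      · exact ha
      · exact hb
    have hle : (C 0 ×ˢ C 1).card ≤ Fintype.card G := by
      rw [← card_univ]
      refine card_le_card_of_injOn (fun x => x.1 + x.2) (fun x _ => mem_univ _) ?_
      rintro ⟨a, b⟩ hab ⟨a', b'⟩ hab' heq
      rw [mem_coe, mem_product] at hab hab'
      have heq' : a + b = a' + b' := heq
      have hz : a' - a = 0 := by
        refine hA a b' (a' - a) (hin a hab.1 b' hab'.2) ?_ ?_
        · have : b' + (a' - a) = b := by
            have : b' + (a' - a) = a' + b' - a := by abel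
            rw [this, ← heq']
            abel
          rw [this]
          exact hin a hab.1 b hab.2
        · have : a + (a' - a) = a' := by abel
          rw [this]
          exact hin a' hab'.1 b' hab'.2
      have haa : a' = a := sub_eq_zero.1 hz
      have hbb : b = b' := by
        rw [haa] at heq'
        exact add_left_cancel heq'
      rw [haa, hbb]
    have hprod : ∏ i, ((C i).card : ℝ) = ((C 0 ×ˢ C 1).card : ℝ) := by
      rw [Fin.prod_univ_two, card_product]
      push_cast
      rfl
    rw [hcell, hprod]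
    exact sqrt_leaf (Nat.cast_nonneg _) (by rw [hN]; exact_mod_cast hle)

open Pool.Agent.TH835.Cor in
/-- the boxes with three labels -/
theorem cell3 {n : ℕ} (A : Finset (V n × V n)) (hA : EqualityOracle.CornerFree A)
    (C : Fin 3 → Finset (V n))
    (hC : ∀ x y, x ∈ C 0 → y ∈ C 1 → x + y ∈ C 2 → (x, y) ∈ A) :
    ((univ.filter fun x : V n × V n => x.1 ∈ C 0 ∧ x.2 ∈ C 1 ∧ x.1 + x.2 ∈ C 2).card : ℝ) ≤
      3 * (54 : ℝ) ^ ((n : ℝ) / 3) := by
  set B := univ.filter fun x : V n × V n => x.1 ∈ C 0 ∧ x.2 ∈ C 1 ∧ x.1 + x.2 ∈ C 2 with hB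
  have hBA : ∀ x, x ∈ B → x ∈ A := by
    intro x hx
    rw [hB, mem_filter] at hx
    exact hC x.1 x.2 hx.2.1 hx.2.2.1 hx.2.2.2
  have hBc : Pool.Agent.TH835.Cor.CornerFree B := by
    rintro x y z hz ⟨h1, h2, h3⟩
    exact hz (hA x y z (hBA _ h1) (hBA _ h2) (hBA _ h3))
  have h := Pool.Agent.TH513.Cor.one_cell (K := ZMod 2) (S := 1) (r := 1) B hBc
    (fun _ _ x => if x ∈ C 0 then 1 else 0) (fun _ _ x => if x ∈ C 1 then 1 else 0)
    (fun _ x => if x ∈ C 2 then 1 else 0) ?_
  · refine h.trans (le_of_eq ?_)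
    norm_num
  · intro x y
    rw [hB, mem_filter]
    by_cases h0 : x ∈ C 0 <;> by_cases h1 : y ∈ C 1 <;> by_cases h2 : x + y ∈ C 2 <;>
      simp [h0, h1, h2]

/-- one protocol, three labels -/
theorem three {n : ℕ} (A B : Finset ((Fin n → ZMod 2) × (Fin n → ZMod 2))) (hA : CornerFree A)
    (hBA : B ⊆ A) (t : Protocol (Fin n → ZMod 2))
    (hB : ∀ x y, (x, y) ∈ B ↔ t.run x y = true) :
    (B.card : ℝ) ≤ 3 ^ (t.tests + (1 : ℝ) / 4) * (4 : ℝ) ^ (0.99 * n : ℝ) := by
  set e : Fin 3 → Fin 3 := fun p => p with he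
  have hacc : ∀ x : Fin 3 → (Fin n → ZMod 2), x 0 + x 1 = x 2 →
      ((conv e t).acc x ↔ (x 0, x 1) ∈ B) := by
    intro x hx
    rw [hB]
    refine conv_acc e x (x 0) (x 1) t (Or.inl fun p => ?_)
    fin_cases p
    · rfl
    · rfl
    · exact hx.symm
  set D : ℝ := 3 * (54 : ℝ) ^ ((n : ℝ) / 3) with hD
  have hD0 : 0 ≤ D := by positivity
  have h := eq_count (ι := Fin 3) (V := Fin n → ZMod 2) (W := fun x => x 0 + x 1 = x 2)
    (c := D ^ ((1 : ℝ) / 4))
    (by positivity) (S := fun x => (x 0, x 1) ∈ A) ?_ (conv e t) (conv_in e t)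
    (fun x hW hx => hBA ((hacc x hW).1 hx))
  · have h1 : (flt (cellW (fun x : Fin 3 → (Fin n → ZMod 2) => x 0 + x 1 = x 2)
        fun _ => univ) (conv e t).acc).card = B.card := by
      refine card_bij (fun x _ => (x 0, x 1)) ?_ ?_ ?_
      · intro x hx
        rw [mem_flt, mem_cellW] at hx
        exact (hacc x hx.1.2).1 hx.2
      · intro x hx y hy h
        rw [mem_flt, mem_cellW] at hx hy
        rw [Prod.mk.injEq] at h
        funext i
        fin_cases i
        · exact h.1
        · exact h.2
        · show x 2 = y 2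
          rw [← hx.1.2, ← hy.1.2, h.1, h.2]
      · intro y hy
        refine ⟨![y.1, y.2, y.1 + y.2], ?_, rfl⟩
        rw [mem_flt, mem_cellW]
        exact ⟨⟨fun i => mem_univ _, rfl⟩, (hacc _ rfl).2 hy⟩
    rw [h1, conv_depth] at h
    refine h.trans ?_
    have hcard : (Fintype.card (Fin n → ZMod 2) : ℝ) ^ Fintype.card (Fin 3) = 8 ^ n := by
      rw [Fintype.card_fun, ZMod.card, Fintype.card_fin, Fintype.card_fin]
      push_cast
      rw [← pow_mul, mul_comm, pow_mul]
      norm_num
    rw [hcard]
    have h2 := Pool.Agent.TH513.Cor.const n 3 (by norm_num)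
    rw [← hD] at h2
    have h3 : (3 : ℝ) ^ (t.tests + (1 : ℝ) / 4) = 3 ^ t.tests * 3 ^ ((1 : ℝ) / 4) := by
      rw [Real.rpow_add (by norm_num), Real.rpow_natCast]
    rw [h3, mul_assoc]
    refine mul_le_mul_of_nonneg_left (h2.trans (le_of_eq ?_)) (by positivity)
    congr 2
    norm_num
  · intro C hC
    set P : ℝ := ((cellW (fun x : Fin 3 → (Fin n → ZMod 2) => x 0 + x 1 = x 2) C).card : ℝ) with hP
    have hP0 : 0 ≤ P := Nat.cast_nonneg _
    have hin : ∀ x y, x ∈ C 0 → y ∈ C 1 → x + y ∈ C 2 → (x, y) ∈ A := by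
      intro x y hx hy hxy
      refine hC ![x, y, x + y] ?_
      rw [mem_cellW]
      refine ⟨fun i => ?_, rfl⟩
      fin_cases i
      · exact hx
      · exact hy
      · exact hxy
    have h1 : P ≤ D := by
      refine le_trans ?_ (cell3 A hA C hin)
      rw [hP]
      norm_cast
      refine card_le_card_of_injOn (fun x => (x 0, x 1)) ?_ ?_
      · intro x hx
        rw [mem_coe, mem_cellW] at hx
        rw [mem_coe, mem_filter]
        refine ⟨mem_univ _, hx.1 0, hx.1 1, ?_⟩
        show x 0 + x 1 ∈ C 2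
        rw [hx.2]
        exact hx.1 2
      · intro x hx y hy h
        rw [mem_coe, mem_cellW] at hx hy
        have h' : (x 0, x 1) = (y 0, y 1) := h
        rw [Prod.mk.injEq] at h'
        funext i
        fin_cases i
        · exact h'.1
        · exact h'.2
        · show x 2 = y 2
          rw [← hx.2, ← hy.2, h'.1, h'.2]
    have hpair : ∀ i j : Fin 3, i ≠ j → P ≤ (C i).card * (C j).card := by
      intro i j hij
      rw [hP]
      have : (cellW (fun x : Fin 3 → (Fin n → ZMod 2) => x 0 + x 1 = x 2) C).card ≤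
          (C i ×ˢ C j).card := by
        refine card_le_card_of_injOn (fun x => (x i, x j)) ?_ ?_
        · intro x hx
          rw [mem_coe, mem_cellW] at hx
          exact mem_coe.2 (mem_product.2 ⟨hx.1 i, hx.1 j⟩)
        · intro x hx y hy h
          rw [mem_coe, mem_cellW] at hx hy
          have h' : (x i, x j) = (y i, y j) := h
          rw [Prod.mk.injEq] at h'
          obtain ⟨h3, h4⟩ := h'
          have hx2 := hx.2
          have hy2 := hy.2
          have h0 : x 0 = y 0 ∧ x 1 = y 1 ∧ x 2 = y 2 := by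
            have key : ∀ a b c a' b' c' : Fin n → ZMod 2, a + b = c → a' + b' = c' →
                (a = a' ∧ b = b') ∨ (a = a' ∧ c = c') ∨ (b = b' ∧ c = c') →
                a = a' ∧ b = b' ∧ c = c' := by
              rintro a b c a' b' c' rfl rfl (⟨rfl, rfl⟩ | ⟨rfl, h⟩ | ⟨rfl, h⟩)
              · exact ⟨rfl, rfl, rfl⟩
              · exact ⟨rfl, add_left_cancel h, h⟩
              · exact ⟨add_right_cancel h, rfl, h⟩
            refine key _ _ _ _ _ _ hx2 hy2 ?_
            fin_cases i <;> fin_cases j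
            · exact absurd rfl hij
            · exact Or.inl ⟨h3, h4⟩
            · exact Or.inr (Or.inl ⟨h3, h4⟩)
            · exact Or.inl ⟨h4, h3⟩
            · exact absurd rfl hij
            · exact Or.inr (Or.inr ⟨h3, h4⟩)
            · exact Or.inr (Or.inl ⟨h4, h3⟩)
            · exact Or.inr (Or.inr ⟨h4, h3⟩)
            · exact absurd rfl hij
          funext i
          fin_cases i
          · exact h0.1
          · exact h0.2.1
          · exact h0.2.2
      rw [card_product] at this
      exact_mod_cast this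
    have h01 := hpair 0 1 (by decide)
    have h02 := hpair 0 2 (by decide)
    have h12 := hpair 1 2 (by decide)
    rw [Fin.prod_univ_three]
    set a : ℝ := (((C 0).card : ℕ) : ℝ) with ha
    set b : ℝ := (((C 1).card : ℕ) : ℝ) with hb
    set c : ℝ := (((C 2).card : ℕ) : ℝ) with hc
    have ha0 : 0 ≤ a := Nat.cast_nonneg _
    have hb0 : 0 ≤ b := Nat.cast_nonneg _
    have hc0 : 0 ≤ c := Nat.cast_nonneg _
    have h4 : P ^ 4 ≤ (D ^ ((1 : ℝ) / 4) * Real.sqrt (a * b * c)) ^ 4 := by
      have e1 : (D ^ ((1 : ℝ) / 4) * Real.sqrt (a * b * c)) ^ 4 = D * (a * b * c) ^ 2 := by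
        rw [mul_pow, ← Real.rpow_natCast (D ^ ((1 : ℝ) / 4)), ← Real.rpow_mul hD0]
        have : Real.sqrt (a * b * c) ^ 4 = (Real.sqrt (a * b * c) ^ 2) ^ 2 := by ring
        rw [this, Real.sq_sqrt (by positivity)]
        norm_num
      rw [e1]
      calc P ^ 4 = P * (P * P * P) := by ring
        _ ≤ D * ((a * b) * (a * c) * (b * c)) := by
            refine mul_le_mul h1 ?_ (by positivity) hD0
            refine mul_le_mul (mul_le_mul h01 h02 hP0 (by positivity)) h12 hP0 (by positivity)
        _ = D * (a * b * c) ^ 2 := by ring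
    exact le_of_pow_le_pow_left₀ (by norm_num) (by positivity) h4

theorem lower {G : Type} [AddCommGroup G] (ρ : G → G → Prop) (m : ℕ) : ∀ X : Finset G,
    X.card ≤ 2 ^ m → ∃ t : Protocol G, t.TwoParty ∧ t.tests ≤ m + 1 ∧
      ∀ x ∈ X, ∀ y, (t.run x y = true ↔ ρ x y) := by
  induction m with
  | zero =>
    intro X hX
    rcases X.eq_empty_or_nonempty with rfl | ⟨x0, h0⟩
    · exact ⟨.leaf true, trivial, by simp [Protocol.tests], fun x hx => absurd hx (notMem_empty x)⟩
    · have hall : ∀ x ∈ X, x = x0 := by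
        intro x hx
        exact card_le_one.1 (by simpa using hX) x hx x0 h0
      refine ⟨.node 0 1 (fun _ => 1) (fun y => if ρ x0 y then 1 else 0) (.leaf true) (.leaf false),
        ⟨by decide, by decide, trivial, trivial⟩, le_refl _, fun x hx y => ?_⟩
      rw [hall x hx]
      show (if 1 = (if ρ x0 y then 1 else 0) then true else false) = true ↔ ρ x0 y
      by_cases h : ρ x0 y <;> simp [h]
  | succ m ih =>
    intro X hX
    obtain ⟨P, hP, hPc⟩ : ∃ P ⊆ X, P.card = min X.card (2 ^ m) :=
      exists_subset_card_eq (min_le_left _ _)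
    have h1 : P.card ≤ 2 ^ m := by rw [hPc]; exact min_le_right _ _
    have h2 : (X \ P).card ≤ 2 ^ m := by
      rw [card_sdiff_of_subset hP, hPc]
      have : (2 : ℕ) ^ (m + 1) = 2 * 2 ^ m := by ring
      omega
    obtain ⟨a, ha0, ha, ha'⟩ := ih P h1
    obtain ⟨b, hb0, hb, hb'⟩ := ih (X \ P) h2
    refine ⟨.node 0 1 (fun x => if x ∈ P then 1 else 0) (fun _ => 1) a b,
      ⟨by decide, by decide, ha0, hb0⟩, ?_, fun x hx y => ?_⟩
    · show max a.tests b.tests + 1 ≤ m + 1 + 1
      omega
    · show (if (if x ∈ P then 1 else 0) = 1 then a.run x y else b.run x y) = true ↔ ρ x y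
      by_cases h : x ∈ P
      · simp only [h, if_true]
        exact ha' x h y
      · simp only [h, if_false]
        rw [if_neg (by norm_num)]
        exact hb' x (mem_sdiff.2 ⟨hx, h⟩) y

theorem union_bound {α : Type} {k : ℕ} {A : Finset α} (B : Fin k → Finset α)
    (hsub : ∀ x ∈ A, ∃ i, x ∈ B i) (c : ℝ) (hc : ∀ i, ((B i).card : ℝ) ≤ c) :
    (A.card : ℝ) ≤ k * c := by
  have h0 : A ⊆ univ.biUnion B := by
    intro x hx
    obtain ⟨i, hi⟩ := hsub x hx
    exact mem_biUnion.2 ⟨i, mem_univ _, hi⟩
  have h1 : A.card ≤ ∑ i, (B i).card := (card_le_card h0).trans card_biUnion_le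
  have h2 : (A.card : ℝ) ≤ ∑ i, ((B i).card : ℝ) := by exact_mod_cast h1
  refine h2.trans ((sum_le_sum fun i _ => hc i).trans ?_)
  rw [sum_const, card_univ, Fintype.card_fin, nsmul_eq_mul]

/-- (1) Let `G` be a finite abelian group of order `N` and `A ⊆ G × G` a corner-free set which is the
union of `k` sets, each decided by a protocol with at most `d` tests none of which uses `x + y`. Then
`|A| ≤ k 3^d N^(3/2)`. (2) Let `A ⊆ (F_2^n)^2` be a corner-free set which is the union of `k` sets,
each decided by a protocol with at most `d` tests. Then `|A| ≤ k 3^(d+1/4) 4^(0.99 n)`. (3) Every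
set `A ⊆ (F_2^n)^2` is decided by a protocol with `n + 1` tests none of which uses `x + y`. (4) For
every finite abelian group `H` there is a corner-free set `A ⊆ G × G`, `G = H × H`, with exactly
`N^(3/2) = |H|^3` points, which is decided by one such test. -/
theorem result :
    (∀ (G : Type) [AddCommGroup G] [Fintype G] (A : Finset (G × G)), CornerFree A →
      ∀ (k d : ℕ) (t : Fin k → Protocol G), (∀ i, (t i).TwoParty ∧ (t i).tests ≤ d) →
        (∀ x y, (x, y) ∈ A ↔ ∃ i, (t i).run x y = true) →
        (A.card : ℝ) ≤ k * 3 ^ d * (Fintype.card G : ℝ) ^ ((3 : ℝ) / 2)) ∧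
    (∀ (n : ℕ) (A : Finset ((Fin n → ZMod 2) × (Fin n → ZMod 2))), CornerFree A →
      ∀ (k d : ℕ) (t : Fin k → Protocol (Fin n → ZMod 2)), (∀ i, (t i).tests ≤ d) →
        (∀ x y, (x, y) ∈ A ↔ ∃ i, (t i).run x y = true) →
        (A.card : ℝ) ≤ k * 3 ^ (d + (1 : ℝ) / 4) * (4 : ℝ) ^ (0.99 * n : ℝ)) ∧
    (∀ (n : ℕ) (A : Finset ((Fin n → ZMod 2) × (Fin n → ZMod 2))),
      ∃ t : Protocol (Fin n → ZMod 2), t.TwoParty ∧ t.tests ≤ n + 1 ∧
        ∀ x y, (x, y) ∈ A ↔ t.run x y = true) ∧
    (∀ (H : Type) [AddCommGroup H] [Fintype H], ∃ (A : Finset ((H × H) × (H × H)))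
      (t : Protocol (H × H)), CornerFree A ∧ A.card = Fintype.card H ^ 3 ∧ t.TwoParty ∧
        t.tests = 1 ∧ ∀ x y, (x, y) ∈ A ↔ t.run x y = true) := by
  refine ⟨?_, ?_, ?_, ?_⟩
  · intro G _ _ A hA k d t ht hAt
    rw [mul_assoc]
    refine union_bound (fun i => univ.filter fun x : G × G => (t i).run x.1 x.2 = true) ?_ _ ?_
    · rintro ⟨x, y⟩ hx
      obtain ⟨i, hi⟩ := (hAt x y).1 hx
      exact ⟨i, mem_filter.2 ⟨mem_univ _, hi⟩⟩
    · intro i
      refine (two A _ hA ?_ (t i) (ht i).1 ?_).trans ?_
      · rintro ⟨x, y⟩ hx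
        exact (hAt x y).2 ⟨i, (mem_filter.1 hx).2⟩
      · intro x y
        rw [mem_filter]
        exact ⟨fun h => h.2, fun h => ⟨mem_univ _, h⟩⟩
      · refine mul_le_mul_of_nonneg_right ?_ (by positivity)
        exact pow_le_pow_right₀ (by norm_num) (ht i).2
  · intro n A hA k d t ht hAt
    rw [mul_assoc]
    refine union_bound (fun i => univ.filter
      fun x : (Fin n → ZMod 2) × (Fin n → ZMod 2) => (t i).run x.1 x.2 = true) ?_ _ ?_
    · rintro ⟨x, y⟩ hx
      obtain ⟨i, hi⟩ := (hAt x y).1 hx
      exact ⟨i, mem_filter.2 ⟨mem_univ _, hi⟩⟩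
    · intro i
      refine (three A _ hA ?_ (t i) ?_).trans ?_
      · rintro ⟨x, y⟩ hx
        exact (hAt x y).2 ⟨i, (mem_filter.1 hx).2⟩
      · intro x y
        rw [mem_filter]
        exact ⟨fun h => h.2, fun h => ⟨mem_univ _, h⟩⟩
      · refine mul_le_mul_of_nonneg_right ?_ (by positivity)
        refine Real.rpow_le_rpow_of_exponent_le (by norm_num) ?_
        have : ((t i).tests : ℝ) ≤ d := by exact_mod_cast ht i
        linarith
  · intro n A
    obtain ⟨t, h1, h2, h3⟩ := lower (fun x y => (x, y) ∈ A) n (univ : Finset (Fin n → ZMod 2))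
      (by rw [card_univ, Fintype.card_fun, ZMod.card, Fintype.card_fin])
    exact ⟨t, h1, h2, fun x y => (h3 x (mem_univ x) y).symm⟩
  · intro H _ _
    obtain ⟨c, hc⟩ : ∃ c : H → ℕ, Function.Injective c :=
      ⟨fun h => (Fintype.equivFin H h : ℕ), fun a b h =>
        (Fintype.equivFin H).injective (Fin.ext h)⟩
    refine ⟨univ.filter fun z : (H × H) × (H × H) => z.1.2 = z.2.1,
      .node 0 1 (fun x => c x.2) (fun y => c y.1) (.leaf true) (.leaf false), ?_, ?_,
      ⟨by decide, by decide, trivial, trivial⟩, rfl, ?_⟩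
    · rintro ⟨x1, x2⟩ ⟨y1, y2⟩ ⟨z1, z2⟩ h1 h2 h3
      rw [mem_filter] at h1 h2 h3
      have h1' : x2 = y1 := h1.2
      have h2' : x2 = y1 + z1 := h2.2
      have h3' : x2 + z2 = y1 := h3.2
      have e1 : z1 = 0 := by
        rw [h1'] at h2'
        exact left_eq_add.1 h2'
      have e2 : z2 = 0 := by
        rw [h1'] at h3'
        exact add_eq_left.1 h3'
      rw [e1, e2]
      rfl
    · have : (univ.filter fun z : (H × H) × (H × H) => z.1.2 = z.2.1).card =
          (univ : Finset (H × H × H)).card := by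
        refine card_bij (fun z _ => (z.1.1, z.1.2, z.2.2)) (fun z _ => mem_univ _) ?_ ?_
        · rintro ⟨⟨a, b⟩, ⟨c, d⟩⟩ h1 ⟨⟨a', b'⟩, ⟨c', d'⟩⟩ h2 h
          rw [mem_filter] at h1 h2
          simp only [Prod.mk.injEq] at h ⊢
          have e1 : b = c := h1.2
          have e2 : b' = c' := h2.2
          exact ⟨⟨h.1, h.2.1⟩, by rw [← e1, ← e2]; exact h.2.1, h.2.2⟩
        · rintro ⟨a, b, d⟩ _
          exact ⟨((a, b), (b, d)), mem_filter.2 ⟨mem_univ _, rfl⟩, rfl⟩
      rw [this, card_univ, Fintype.card_prod, Fintype.card_prod]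
      ring
    · rintro ⟨x1, x2⟩ ⟨y1, y2⟩
      rw [mem_filter]
      show _ ↔ (if c x2 = c y1 then true else false) = true
      by_cases h : x2 = y1
      · simp [h]
      · have : ¬ c x2 = c y1 := fun h' => h (hc h')
        simp [h, this]

end Pool.Agent.Results.MP_db4732_co.EqualityOracle
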