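import Pool.Agent.X222.RW.Corner

set_option autoImplicit false

/-!
# Corners and nondeterministic branching programs of bounded width

A relative corners theorem: all corner-free sets have small relative density in the sets decided by
nondeterministic branching programs of bounded width, which may be exponentially sparse if the
programs read the pairs `(x i, y i)` in a bounded number of passes, and of density `exp (- n ^ c)` if
the programs have linear length and read the coordinates in any order. Consequently there are bounds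
for the corner-free sets which are unions of sets of the second kind.

Proof. The levels are divided into intervals, and there are many disjoint blocks of `m` positions
such that each interval meets at most one block and each block is met by boundedly many intervals.
The program depends on the letters in a block only through the relations between the nodes at the
ends of these intervals, so the contents of a block fall into boundedly many classes. Words for which
half of the blocks have a content in a small class are rare. In a large class, a corner-free set has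
small density by the corners theorem in `(G^m)^2`.
-/

namespace Pool.Agent.Results.MP_db4732_co.RelativeBoundedWidth

open Finset Pool.Agent.X222.RW

/-- `A ⊆ H × H` contains no nontrivial corner `(x, y), (x, y + z), (x + z, y)`, `z ≠ 0`. -/
def CornerFree {H : Type} [AddCommGroup H] (A : Finset (H × H)) : Prop :=
  ∀ x y z : H, (x, y) ∈ A → (x, y + z) ∈ A → (x + z, y) ∈ A → z = 0

/-- `F ⊆ (G^n)^2` is decided by a nondeterministic branching program of width `w` which reads the
pairs `(x i, y i)` in `q` passes: it has `q n` steps, and in the step `t` it reads the pair number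
`t % n` in a fixed order `σ` of the `n` positions. -/
def InPasses {G : Type} {n : ℕ} (w q : ℕ) (F : Finset ((Fin n → G) × (Fin n → G))) : Prop :=
  ∃ (M : Program (G × G) n w) (σ : Fin n ≃ Fin n), M.levels = q * n ∧
    (∀ t < q * n, ∀ a, (σ (M.query t a) : ℕ) = t % n) ∧
    ∀ x y, (x, y) ∈ F ↔ M.Accepts fun i => (x i, y i)

/-- `F ⊆ (G^n)^2` is decided by a nondeterministic branching program of width `w` with at most `q n`
steps; each node reads a pair `(x i, y i)` (or only one of `x i` and `y i`), `i` arbitrary. -/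
def InSteps {G : Type} {n : ℕ} (w q : ℕ) (F : Finset ((Fin n → G) × (Fin n → G))) : Prop :=
  ∃ M : Program (G × G) n w, M.levels ≤ q * n ∧
    ∀ x y, (x, y) ∈ F ↔ M.Accepts fun i => (x i, y i)

variable {G : Type} [AddCommGroup G] [Fintype G] [DecidableEq G] [Nontrivial G]

omit [AddCommGroup G] [Fintype G] [DecidableEq G] [Nontrivial G] in
theorem mem_zip {n : ℕ} (F : Finset ((Fin n → G) × (Fin n → G))) (f : Fin n → G × G) :
    f ∈ F.map (zipE G n).toEmbedding ↔ ((fun i => (f i).1), fun i => (f i).2) ∈ F := by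
  constructor
  · intro h
    obtain ⟨p, hp, rfl⟩ := mem_map.1 h
    exact hp
  · intro h
    exact mem_map.2 ⟨_, h, rfl⟩

omit [AddCommGroup G] [Fintype G] [DecidableEq G] [Nontrivial G] in
theorem passes_zip {n w q : ℕ} {F : Finset ((Fin n → G) × (Fin n → G))} (h : InPasses w q F) :
    Pool.Agent.X222.RW.InPasses w q (F.map (zipE G n).toEmbedding) := by
  obtain ⟨M, σ, h1, h2, h3⟩ := h
  exact ⟨M, σ, h1, h2, fun f => (mem_zip F f).trans (h3 _ _)⟩

omit [AddCommGroup G] [Fintype G] [DecidableEq G] [Nontrivial G] in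
theorem steps_zip {n w q : ℕ} {F : Finset ((Fin n → G) × (Fin n → G))} (h : InSteps w q F) :
    Pool.Agent.X222.RW.InSteps w q (F.map (zipE G n).toEmbedding) := by
  obtain ⟨M, h1, h3⟩ := h
  exact ⟨M, h1, fun f => (mem_zip F f).trans (h3 _ _)⟩

omit [DecidableEq G] in
theorem relative' (w q : ℕ) (hw : 1 ≤ w) (hq : 1 ≤ q) (δ : ℝ) (hδ : 0 < δ) : ∃ C : ℕ,
    ∀ (n t : ℕ) (A F : Finset ((Fin n → G) × (Fin n → G))), CornerFree A →
      (C * t ≤ n ∧ InPasses w q F) ∨ (C * t ^ (2 * w * q) ≤ n ∧ InSteps w q F) →
      ∀ A' : Finset ((Fin n → G) × (Fin n → G)), (∀ p, p ∈ A' ↔ p ∈ A ∧ p ∈ F) →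
      (A'.card : ℝ) ≤ δ * F.card + (Fintype.card G : ℝ) ^ (2 * n) / 2 ^ t := by
  classical
  set N : ℕ := 2 ^ (w * w * (2 * w * q)) with hN
  have hN0 : (0 : ℝ) < N := by
    have : 0 < N := by rw [hN]; positivity
    exact_mod_cast this
  obtain ⟨m, R, hm, hR, hRδ⟩ := corner_dens (G := G) (δ := δ / (32 * N)) (by positivity)
  have hRN : 32 * ((2 ^ (w * w * (2 * w * q)) : ℕ) : ℝ) * (R / (Fintype.card (G × G) : ℝ) ^ m) ≤ δ := by
    rw [← hN]
    have h3 := mul_le_mul_of_nonneg_left hRδ (by positivity : (0 : ℝ) ≤ 32 * N)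
    have h4 : 32 * (N : ℝ) * (δ / (32 * N)) = δ := by field_simp
    linarith
  refine ⟨cst m w q, fun n t A F hA hcase A' hA' => ?_⟩
  have hthin := corner_thin (G := G) hR A hA
  have h1 := relative hw hq hm hRN (n := n) (t := t) (A.map (zipE G n).toEmbedding)
    (F.map (zipE G n).toEmbedding) hthin
    (by
      rcases hcase with ⟨h2, h3⟩ | ⟨h2, h3⟩
      · exact Or.inl ⟨h2, passes_zip h3⟩
      · exact Or.inr ⟨h2, steps_zip h3⟩)
  rw [card_map] at h1
  have h2 : A'.card = ((A.map (zipE G n).toEmbedding) ∩ (F.map (zipE G n).toEmbedding)).card := by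
    rw [← map_inter, card_map]
    congr 1
    ext p
    rw [hA', mem_inter]
  rw [h2]
  have h3 : (Fintype.card (G × G) : ℝ) ^ n = (Fintype.card G : ℝ) ^ (2 * n) := by
    rw [Fintype.card_prod]
    push_cast
    rw [pow_mul, sq]
  rw [h3] at h1
  exact h1

/-- **Theorem.** Let `G` be a nontrivial finite abelian group (for example `F_2`), `w, q ≥ 1`.
For every `δ > 0` there is `C` such that for all `n`, `t`, all corner-free `A ⊆ (G^n)^2` and all
`F ⊆ (G^n)^2`:
(1) if `C t ≤ n` and `F` is decided by a nondeterministic branching program of width `w` which reads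
the pairs `(x i, y i)` in `q` passes, then `|A ∩ F| ≤ δ |F| + |G|^(2 n) / 2^t`;
(2) the same holds if `C t^(2 w q) ≤ n` and `F` is decided by a nondeterministic branching program of
width `w` with at most `q n` steps.
(3) There is `C` such that if `C t^(2 w q) ≤ n` and a corner-free set `A` is the union of `T` sets as
in (2), then `|A| ≤ 2 T |G|^(2 n) / 2^t`. -/
theorem result (G : Type) [AddCommGroup G] [Fintype G] [DecidableEq G] [Nontrivial G]
    (w q : ℕ) (hw : 1 ≤ w) (hq : 1 ≤ q) :
    (∀ δ : ℝ, 0 < δ → ∃ C : ℕ, ∀ (n t : ℕ) (A F : Finset ((Fin n → G) × (Fin n → G))),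
      CornerFree A →
      (C * t ≤ n → InPasses w q F →
        ((A ∩ F).card : ℝ) ≤ δ * F.card + (Fintype.card G : ℝ) ^ (2 * n) / 2 ^ t) ∧
      (C * t ^ (2 * w * q) ≤ n → InSteps w q F →
        ((A ∩ F).card : ℝ) ≤ δ * F.card + (Fintype.card G : ℝ) ^ (2 * n) / 2 ^ t)) ∧
    ∃ C : ℕ, ∀ (n t T : ℕ) (A : Finset ((Fin n → G) × (Fin n → G)))
      (F : Fin T → Finset ((Fin n → G) × (Fin n → G))),
      CornerFree A → (∀ p, p ∈ A ↔ ∃ i, p ∈ F i) →
      C * t ^ (2 * w * q) ≤ n → (∀ i, InSteps w q (F i)) →
        (A.card : ℝ) ≤ 2 * T * ((Fintype.card G : ℝ) ^ (2 * n) / 2 ^ t) := by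
  refine ⟨fun δ hδ => ?_, ?_⟩
  · obtain ⟨C, hC⟩ := relative' (G := G) w q hw hq δ hδ
    refine ⟨C, fun n t A F hA => ⟨fun ht hF => ?_, fun ht hF => ?_⟩⟩
    · exact hC n t A F hA (Or.inl ⟨ht, hF⟩) _ fun p => mem_inter
    · exact hC n t A F hA (Or.inr ⟨ht, hF⟩) _ fun p => mem_inter
  · obtain ⟨C, hC⟩ := relative' (G := G) w q hw hq (1 / 2) (by norm_num)
    refine ⟨C, fun n t T A F hA hAF => ?_⟩
    have key : (∀ i, (((A ∩ F i).card : ℕ) : ℝ) ≤
        1 / 2 * (F i).card + (Fintype.card G : ℝ) ^ (2 * n) / 2 ^ t) →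
        (A.card : ℝ) ≤ 2 * T * ((Fintype.card G : ℝ) ^ (2 * n) / 2 ^ t) := by
      intro h
      have h2 : ∀ i, ((F i).card : ℝ) ≤ 2 * ((Fintype.card G : ℝ) ^ (2 * n) / 2 ^ t) := by
        intro i
        have h3 : A ∩ F i = F i := by
          rw [inter_eq_right]
          intro x hx
          exact (hAF x).2 ⟨i, hx⟩
        have h4 := h i
        rw [h3] at h4
        linarith
      have h3 : A ⊆ univ.biUnion F := by
        intro x hx
        obtain ⟨i, hi⟩ := (hAF x).1 hx
        exact mem_biUnion.2 ⟨i, mem_univ _, hi⟩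
      calc (A.card : ℝ) ≤ ((univ.biUnion F).card : ℝ) := by exact_mod_cast card_le_card h3
        _ ≤ ((∑ i, (F i).card : ℕ) : ℝ) := by exact_mod_cast card_biUnion_le
        _ = ∑ i, ((F i).card : ℝ) := by push_cast; rfl
        _ ≤ ∑ _i : Fin T, 2 * ((Fintype.card G : ℝ) ^ (2 * n) / 2 ^ t) :=
            sum_le_sum fun i _ => h2 i
        _ = _ := by rw [sum_const, card_univ, Fintype.card_fin, nsmul_eq_mul]; ring
    exact fun ht hF => key fun i => hC n t A (F i) hA (Or.inr ⟨ht, hF i⟩) _ fun p => mem_inter

end Pool.Agent.Results.MP_db4732_co.RelativeBoundedWidth
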