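import Pool.Agent.X79.RF.Main
import Pool.Agent.X222.RW.Corner

set_option autoImplicit false
set_option linter.unusedSectionVars false

/-!
# The corners theorem relative to sets of low degree and to sets decided by small formulas

Let `G` be a nontrivial finite abelian group (`G = F_2` in the problem). If the indicator function of
`F ⊆ G^n × G^n` is a sum of real functions each of which depends on at most `c n` of the pairs
`(x_i, y_i)`, then every corner-free set has relative density at most `δ` in `F`, no matter how small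
`F` is. If `F` is decided by a formula with `S` leaves, the same holds up to an additive error
`2 |G|^(2n) exp (- c n² / (S + n))`, which is a power saving for formulas of linear size.

Proof. If the indicator function of `F` has degree at most `t`, then by Parseval's identity `F` has
at most `2 t |G|² |F|` boundary edges. Hence for a suitable block of `m` coordinates only few points
of `F` lie in a subcube (given by these coordinates) which is not contained in `F`; in the subcubes
contained in `F` the corners theorem in dimension `m` applies. A formula with `S` leaves has degree at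
most `t ~ n² / S` on most subcubes with about `t` free coordinates.
-/

namespace Pool.Agent.Results.MP_db4732_co.RelativeFormulas

open Finset Function

/-- `A ⊆ (G^n)^2` contains no nontrivial corner `(x, y), (x, y + z), (x + z, y)`, `z ≠ 0`. -/
def CornerFree {G : Type} [AddCommGroup G] {n : ℕ} (A : Finset ((Fin n → G) × (Fin n → G))) :
    Prop :=
  ∀ x y z : Fin n → G, (x, y) ∈ A → (x, y + z) ∈ A → (x + z, y) ∈ A → z = 0

/-- The indicator function of `F` is a sum of real functions `h J`, where `J` is a set of at most `t`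
indices and `h J` depends on the `x i` and the `y i` with `i ∈ J` only. -/
def DegreeAtMost {G : Type} [DecidableEq G] {n : ℕ} (t : ℕ)
    (F : Finset ((Fin n → G) × (Fin n → G))) : Prop :=
  ∃ h : Finset (Fin n) → (Fin n → G) × (Fin n → G) → ℝ,
    (∀ J p p', (∀ i ∈ J, p.1 i = p'.1 i ∧ p.2 i = p'.2 i) → h J p = h J p') ∧
    ∀ p, (if p ∈ F then (1 : ℝ) else 0) = ∑ J ∈ univ.filter fun J => J.card ≤ t, h J p

/-- Formulas whose leaves are arbitrary tests of the pair `(x i, y i)` for some index `i`. -/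
inductive Formula (G : Type) (n : ℕ) : Type
  | test : Fin n → (G × G → Bool) → Formula G n
  | not : Formula G n → Formula G n
  | and : Formula G n → Formula G n → Formula G n
  | or : Formula G n → Formula G n → Formula G n

/-- the number of leaves -/
def Formula.leaves {G : Type} {n : ℕ} : Formula G n → ℕ
  | .test _ _ => 1
  | .not f => f.leaves
  | .and f g => f.leaves + g.leaves
  | .or f g => f.leaves + g.leaves

/-- the formula accepts `(x, y)` -/
def Formula.Accepts {G : Type} {n : ℕ} : Formula G n → (Fin n → G) → (Fin n → G) → Prop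
  | .test i P, x, y => P (x i, y i) = true
  | .not f, x, y => ¬ f.Accepts x y
  | .and f g, x, y => f.Accepts x y ∧ g.Accepts x y
  | .or f g, x, y => f.Accepts x y ∨ g.Accepts x y

/-- `F` is decided by a formula with at most `S` leaves. -/
def Decided {G : Type} {n : ℕ} (S : ℕ) (F : Finset ((Fin n → G) × (Fin n → G))) : Prop :=
  ∃ φ : Formula G n, φ.leaves ≤ S ∧ ∀ x y, (x, y) ∈ F ↔ φ.Accepts x y

open Pool.Agent.H564R2.QF Pool.Agent.X79.RF Pool.Agent.Y607.LP
open Pool.Agent.X222.RW (zipE Thin corner_thin corner_dens)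

/-- the formula of the library -/
def Formula.conv {G : Type} {n : ℕ} : Formula G n → Fml (Fin n × (G × G → Bool))
  | .test i P => .var (i, P)
  | .not f => .neg f.conv
  | .and f g => .and f.conv g.conv
  | .or f g => .or f.conv g.conv

lemma conv_size {G : Type} {n : ℕ} (f : Formula G n) : f.conv.size = f.leaves := by
  induction f with
  | test i P => rfl
  | not f ih => exact ih
  | and f g ih ih' => simp only [Formula.conv, Fml.size, Formula.leaves, ih, ih']
  | or f g ih ih' => simp only [Formula.conv, Fml.size, Formula.leaves, ih, ih']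

lemma conv_acc {G : Type} {n : ℕ} (f : Formula G n) (x : Fin n → G × G) :
    Accp f.conv x ↔ f.Accepts (fun i => (x i).1) (fun i => (x i).2) := by
  unfold Accp
  induction f with
  | test i P => simp [Formula.conv, Fml.eval, Formula.Accepts]
  | not f ih => simp [Formula.conv, Fml.eval, Formula.Accepts, ← ih]
  | and f g ih ih' => simp [Formula.conv, Fml.eval, Formula.Accepts, ← ih, ← ih']
  | or f g ih ih' => simp [Formula.conv, Fml.eval, Formula.Accepts, ← ih, ← ih']

section

variable {G : Type} [AddCommGroup G] [Fintype G] [DecidableEq G] {n m r : ℕ}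

omit [AddCommGroup G] [Fintype G] [DecidableEq G] in
lemma mem_zip (F : Finset ((Fin n → G) × (Fin n → G))) (x : Fin n → G × G) :
    x ∈ F.map (zipE G n).toEmbedding ↔ ((fun i => (x i).1, fun i => (x i).2) :
      (Fin n → G) × (Fin n → G)) ∈ F := by
  rw [mem_map]
  constructor
  · rintro ⟨p, hp, rfl⟩
    exact hp
  · intro h
    exact ⟨_, h, rfl⟩

lemma zip_inter (A F : Finset ((Fin n → G) × (Fin n → G))) :
    A.map (zipE G n).toEmbedding ∩ F.map (zipE G n).toEmbedding =
      (A ∩ F).map (zipE G n).toEmbedding := by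
  ext x
  simp only [mem_inter, mem_zip]

lemma degLe (t : ℕ) (F : Finset ((Fin n → G) × (Fin n → G))) (hF : DegreeAtMost t F) :
    DegLe (ind (F.map (zipE G n).toEmbedding)) t := by
  obtain ⟨h, hdep, hsum⟩ := hF
  intro u v
  have h1 : (fun y : Fin n → Bool => ind (F.map (zipE G n).toEmbedding) (mx y u v)) =
      ∑ J ∈ univ.filter fun J : Finset (Fin n) => J.card ≤ t,
        fun y : Fin n → Bool => h J (fun i => (mx y u v i).1, fun i => (mx y u v i).2) := by
    funext y
    rw [Finset.sum_apply, ← hsum]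
    unfold ind
    exact if_congr (mem_zip F _) rfl rfl
  rw [h1]
  refine Submodule.sum_mem _ fun J hJ => ?_
  refine dep_lowDeg _ J (mem_filter.1 hJ).2 fun y y' hyy => ?_
  apply hdep
  intro i hi
  simp only [mx, hyy i hi, and_self]

/-- the inequality for sets of low degree -/
lemma part1 [Nontrivial G] (t : ℕ) (hm : 1 ≤ m) (hmn : m ≤ n)
    (hr : ∀ B : Finset ((Fin m → G) × (Fin m → G)), CornerFree B → B.card ≤ r)
    (A F : Finset ((Fin n → G) × (Fin n → G))) (hA : CornerFree A) (hF : DegreeAtMost t F) :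
    ((A ∩ F).card : ℝ) ≤ (r / ((Fintype.card G : ℝ) ^ 2) ^ m +
      2 * t * ((Fintype.card G : ℝ) ^ 2) ^ (m + 1) / (n / m : ℕ)) * F.card := by
  have h1 := rel_degree (R := r) hm hmn (A.map (zipE G n).toEmbedding)
    (F.map (zipE G n).toEmbedding) (corner_thin hr A hA) (degLe t F hF)
  rw [zip_inter, card_map, card_map, Fintype.card_prod] at h1
  push_cast at h1
  rw [← sq] at h1
  exact h1

end

/-- **Theorem.** Let `G` be a nontrivial finite abelian group, for instance `G = F_2`.
(1) Let `1 ≤ m ≤ n` and suppose that corner-free subsets of `(G^m)^2` have at most `r` elements. If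
`A ⊆ (G^n)^2` is corner-free and `F ⊆ (G^n)^2` has degree at most `t`, then
`|A ∩ F| ≤ (r / |G|^(2m) + 2 t |G|^(2m+2) / ⌊n / m⌋) |F|`.
(2) For every `δ > 0` there is `c > 0` such that `|A ∩ F| ≤ δ |F|` for all `1 ≤ t ≤ c n`, all `F` of
degree at most `t` and all corner-free `A`.
(3) If corner-free subsets of `(G^m)^2`, `m ≥ 1`, have at most `r` elements, then for every `δ > 0`
there is `c > 0` such that `|A ∩ F| ≤ (r / |G|^(2m) + δ) |F| + 2 |G|^(2n) exp (- c n² / (S + n))` for
all `n`, `S`, all `F` decided by a formula with at most `S` leaves and all corner-free `A`.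
(4) So for every `δ > 0` there is `c > 0` such that
`|A ∩ F| ≤ δ |F| + 2 |G|^(2n) exp (- c n² / (S + n))` for all such `F` and `A`.
(5) There is `c > 0` such that every corner-free `A` which is the union of `T` sets decided by
formulas with at most `S` leaves has at most `4 T |G|^(2n) exp (- c n² / (S + n))` elements. -/
theorem result (G : Type) [AddCommGroup G] [Fintype G] [DecidableEq G] [Nontrivial G] :
    (∀ n m r t : ℕ, 1 ≤ m → m ≤ n →
      (∀ B : Finset ((Fin m → G) × (Fin m → G)), CornerFree B → B.card ≤ r) →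
      ∀ A F : Finset ((Fin n → G) × (Fin n → G)), CornerFree A → DegreeAtMost t F →
        ((A ∩ F).card : ℝ) ≤ (r / (Fintype.card G : ℝ) ^ (2 * m) +
          2 * t * (Fintype.card G : ℝ) ^ (2 * m + 2) / (n / m : ℕ)) * F.card) ∧
    (∀ δ : ℝ, 0 < δ → ∃ c : ℝ, 0 < c ∧ ∀ n t : ℕ, 1 ≤ t → (t : ℝ) ≤ c * n →
      ∀ A F : Finset ((Fin n → G) × (Fin n → G)), CornerFree A → DegreeAtMost t F →
        ((A ∩ F).card : ℝ) ≤ δ * F.card) ∧
    (∀ m r : ℕ, 1 ≤ m →
      (∀ B : Finset ((Fin m → G) × (Fin m → G)), CornerFree B → B.card ≤ r) →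
      ∀ δ : ℝ, 0 < δ → ∃ c : ℝ, 0 < c ∧ ∀ n S : ℕ,
      ∀ A F : Finset ((Fin n → G) × (Fin n → G)), CornerFree A → Decided S F →
        ((A ∩ F).card : ℝ) ≤ (r / (Fintype.card G : ℝ) ^ (2 * m) + δ) * F.card +
          2 * (Fintype.card G : ℝ) ^ (2 * n) * Real.exp (-(c * n ^ 2 / (S + n)))) ∧
    (∀ δ : ℝ, 0 < δ → ∃ c : ℝ, 0 < c ∧ ∀ n S : ℕ,
      ∀ A F : Finset ((Fin n → G) × (Fin n → G)), CornerFree A → Decided S F →
        ((A ∩ F).card : ℝ) ≤ δ * F.card +
          2 * (Fintype.card G : ℝ) ^ (2 * n) * Real.exp (-(c * n ^ 2 / (S + n)))) ∧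
    (∃ c : ℝ, 0 < c ∧ ∀ n S T : ℕ, ∀ (A : Finset ((Fin n → G) × (Fin n → G)))
      (F : Fin T → Finset ((Fin n → G) × (Fin n → G))), CornerFree A →
        (∀ i, Decided S (F i)) → (∀ p, p ∈ A ↔ ∃ i, p ∈ F i) →
        (A.card : ℝ) ≤
          4 * T * (Fintype.card G : ℝ) ^ (2 * n) * Real.exp (-(c * n ^ 2 / (S + n)))) := by
  have hG0 : (0 : ℝ) < Fintype.card G := by exact_mod_cast Fintype.card_pos
  have h1 : ∀ n m r t : ℕ, 1 ≤ m → m ≤ n →
      (∀ B : Finset ((Fin m → G) × (Fin m → G)), CornerFree B → B.card ≤ r) →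
      ∀ A F : Finset ((Fin n → G) × (Fin n → G)), CornerFree A → DegreeAtMost t F →
        ((A ∩ F).card : ℝ) ≤ (r / (Fintype.card G : ℝ) ^ (2 * m) +
          2 * t * (Fintype.card G : ℝ) ^ (2 * m + 2) / (n / m : ℕ)) * F.card := by
    intro n m r t hm hmn hr A F hA hF
    have := part1 t hm hmn hr A F hA hF
    rw [← pow_mul, ← pow_mul] at this
    exact this
  have h3 : ∀ m r : ℕ, 1 ≤ m →
      (∀ B : Finset ((Fin m → G) × (Fin m → G)), CornerFree B → B.card ≤ r) →
      ∀ δ : ℝ, 0 < δ → ∃ c : ℝ, 0 < c ∧ ∀ n S : ℕ,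
      ∀ A F : Finset ((Fin n → G) × (Fin n → G)), CornerFree A → Decided S F →
        ((A ∩ F).card : ℝ) ≤ (r / (Fintype.card G : ℝ) ^ (2 * m) + δ) * F.card +
          2 * (Fintype.card G : ℝ) ^ (2 * n) * Real.exp (-(c * n ^ 2 / (S + n))) := by
    intro m r hm hr δ hδ
    obtain ⟨c, hc, h⟩ := rel_formula (α := G × G) m r hm hδ
    refine ⟨c, hc, fun n S A F hA hF => ?_⟩
    obtain ⟨φ, hφ, hdec⟩ := hF
    have h2 := h n S φ.conv (by rw [conv_size]; exact hφ) (A.map (zipE G n).toEmbedding)
      (F.map (zipE G n).toEmbedding) (corner_thin hr A hA)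
      (fun x => by rw [mem_zip, hdec, conv_acc])
    rw [zip_inter, card_map, card_map, Fintype.card_prod] at h2
    push_cast at h2
    rw [← sq, ← pow_mul, ← pow_mul] at h2
    exact h2
  have hdens : ∀ δ : ℝ, 0 < δ → ∃ m r : ℕ, 1 ≤ m ∧
      (∀ B : Finset ((Fin m → G) × (Fin m → G)), CornerFree B → B.card ≤ r) ∧
      r / (Fintype.card G : ℝ) ^ (2 * m) ≤ δ := by
    intro δ hδ
    obtain ⟨m, r, hm, hr, hrδ⟩ := corner_dens (G := G) hδ
    refine ⟨m, r, hm, hr, ?_⟩
    rw [Fintype.card_prod] at hrδ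
    push_cast at hrδ
    rw [← sq, ← pow_mul] at hrδ
    exact hrδ
  have h4 : ∀ δ : ℝ, 0 < δ → ∃ c : ℝ, 0 < c ∧ ∀ n S : ℕ,
      ∀ A F : Finset ((Fin n → G) × (Fin n → G)), CornerFree A → Decided S F →
        ((A ∩ F).card : ℝ) ≤ δ * F.card +
          2 * (Fintype.card G : ℝ) ^ (2 * n) * Real.exp (-(c * n ^ 2 / (S + n))) := by
    intro δ hδ
    obtain ⟨m, r, hm, hr, hrδ⟩ := hdens (δ / 2) (by positivity)
    obtain ⟨c, hc, h⟩ := h3 m r hm hr (δ / 2) (by positivity)
    refine ⟨c, hc, fun n S A F hA hF => (h n S A F hA hF).trans ?_⟩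
    have : (r / (Fintype.card G : ℝ) ^ (2 * m) + δ / 2) * F.card ≤ δ * F.card :=
      mul_le_mul_of_nonneg_right (by linarith) (by positivity)
    linarith
  refine ⟨h1, ?_, h3, h4, ?_⟩
  · intro δ hδ
    obtain ⟨m, r, hm, hr, hrδ⟩ := hdens (δ / 2) (by positivity)
    have hmr : (0 : ℝ) < m := by exact_mod_cast hm
    set Q : ℝ := (Fintype.card G : ℝ) ^ (2 * m + 2) with hQ
    have hQ0 : 0 < Q := by positivity
    refine ⟨min (1 / m) (δ / (8 * m * Q)), by positivity, fun n t ht htn A F hA hF => ?_⟩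
    have htr : (1 : ℝ) ≤ t := by exact_mod_cast ht
    have hn0 : (0 : ℝ) ≤ n := by positivity
    have hmn : m ≤ n := by
      have h5 : (1 : ℝ) ≤ 1 / m * n :=
        (htr.trans htn).trans (mul_le_mul_of_nonneg_right (min_le_left _ _) hn0)
      rw [one_div, inv_mul_eq_div, le_div_iff₀ hmr, one_mul] at h5
      exact_mod_cast h5
    have h5 : (t : ℝ) ≤ δ / (8 * m * Q) * n :=
      htn.trans (mul_le_mul_of_nonneg_right (min_le_right _ _) hn0)
    have hg : (n : ℝ) / (2 * m) ≤ ((n / m : ℕ) : ℝ) := by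
      have e1 : n < m * (n / m + 1) := Nat.lt_mul_div_succ n (by omega)
      have e2 : 1 ≤ n / m := (Nat.le_div_iff_mul_le (by omega)).2 (by omega)
      have e3 : (n : ℝ) < m * (((n / m : ℕ) : ℝ) + 1) := by exact_mod_cast e1
      have e4 : (1 : ℝ) ≤ ((n / m : ℕ) : ℝ) := by exact_mod_cast e2
      rw [div_le_iff₀ (by positivity)]
      nlinarith
    have hgpos : (0 : ℝ) < ((n / m : ℕ) : ℝ) := by
      have e2 : 1 ≤ n / m := (Nat.le_div_iff_mul_le (by omega)).2 (by omega)
      exact_mod_cast e2
    refine (h1 n m r t hm hmn hr A F hA hF).trans ?_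
    apply mul_le_mul_of_nonneg_right _ (by positivity)
    have h6 : 2 * t * Q / ((n / m : ℕ) : ℝ) ≤ δ / 2 := by
      rw [div_le_iff₀ hgpos]
      have h7 : δ / 2 * (n / (2 * m)) ≤ δ / 2 * ((n / m : ℕ) : ℝ) :=
        mul_le_mul_of_nonneg_left hg (by positivity)
      have h8 : 2 * t * Q ≤ δ / 2 * (n / (2 * m)) := by
        calc 2 * t * Q ≤ 2 * (δ / (8 * m * Q) * n) * Q := by gcongr
          _ = δ / 2 * (n / (2 * m)) := by
              field_simp
              ring
      linarith
    linarith
  · obtain ⟨c, hc, h⟩ := h4 (1 / 2) (by norm_num)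
    refine ⟨c, hc, fun n S T A F hA hF hun => ?_⟩
    set X : ℝ := (Fintype.card G : ℝ) ^ (2 * n) * Real.exp (-(c * n ^ 2 / (S + n))) with hX
    have h5 : ∀ i, ((F i).card : ℝ) ≤ 4 * X := by
      intro i
      have h6 : A ∩ F i = F i := by
        rw [inter_eq_right]
        intro p hp
        exact (hun p).2 ⟨i, hp⟩
      have h7 := h n S A (F i) hA (hF i)
      rw [h6] at h7
      linarith
    have h6 : A ⊆ univ.biUnion F := by
      intro p hp
      obtain ⟨i, hi⟩ := (hun p).1 hp
      exact mem_biUnion.2 ⟨i, mem_univ _, hi⟩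
    calc (A.card : ℝ) ≤ ((univ.biUnion F).card : ℝ) := by exact_mod_cast card_le_card h6
      _ ≤ ∑ i, ((F i).card : ℝ) := by exact_mod_cast card_biUnion_le
      _ ≤ ∑ _i : Fin T, 4 * X := sum_le_sum fun i _ => h5 i
      _ = 4 * T * (Fintype.card G : ℝ) ^ (2 * n) * Real.exp (-(c * n ^ 2 / (S + n))) := by
          rw [sum_const, card_univ, Fintype.card_fin, nsmul_eq_mul, hX]
          ring

end Pool.Agent.Results.MP_db4732_co.RelativeFormulas
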